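import Pool.Agent.H39R2.GonP.Bridge
import Pool.Agent.K9h91.PC.SpanB

/-!
# Goncharov's polylogarithmic complexes of `k(x)`, `k` an infinite algebraic extension of `F_p`

For `F = k(x)`, `k` any infinite algebraic extension of `F_p`, all the complexes
`Γ(F,n) ⊗ ℚ`, `n ≥ 2`, are acyclic.  Goncharov's conjecture predicts exactly this, because
`K_m(F) ⊗ ℚ = 0` for `m ≥ 2`.

The definitions are in `Pool/Agent/H39R2/GonP/Defs.lean`.
-/

set_option autoImplicit false

namespace Pool.Agent.Results.MP_9c6ec7_al.InfiniteConstantFields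

open GonP

/-- For `F = k(x)`, `k` an infinite algebraic extension of `F_p`, the differentials of the
complexes `Γ(F,n) ⊗ ℚ`, `n ≥ 2`, exist and are unique, and all these complexes are acyclic. -/
theorem result (p : ℕ) [Fact p.Prime] (k : Type) [Field k] [Infinite k] [Algebra (ZMod p) k]
    [Algebra.IsAlgebraic (ZMod p) k] :
    ∃ D : Differentials (RatFunc k), (∀ D' : Differentials (RatFunc k), D' = D) ∧ D.Acyclic := by
  have : CharP k p := charP_of_injective_algebraMap (algebraMap (ZMod p) k).injective p
  obtain ⟨D⟩ := H39Gon.exists_differentials k p (H39Gon.frob_fix k p)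
  exact ⟨ofD D, fun D' => unique (ofD D) D', ofD_acyclic D
    (H39Gon.acyclic_of_spanDual k p (H39Gon.frob_fix k p)
      (fun m => Pool.Agent.K9h91.PC.spanDual_inf k p m) D)⟩

end Pool.Agent.Results.MP_9c6ec7_al.InfiniteConstantFields
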