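import Pool.Agent.Helper47.GonPT

/-!
# Goncharov's complexes of `k(x)`, `k` algebraic over `F_p`, in degrees `1`, `n - 1` and `n`

`F = k(x)`, `k` any algebraic extension of `F_p`, for instance a finite field: for all `n ≥ 2` the
cohomology of `Γ(F,n) ⊗ ℚ` vanishes in degrees `1`, `n - 1` and `n`. In particular the complexes
`Γ(F,2) ⊗ ℚ` and `Γ(F,3) ⊗ ℚ` are acyclic. This is what Goncharov's conjecture predicts, because
`K_m(F) ⊗ ℚ = 0` for `m ≥ 2`.

The proof uses that `Sym²(F^*) ⊗ F^*` is rationally spanned by the elements `f ⊗ f ⊗ (1 - f)`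
(`Y775.W3.span_poly`).

The definitions are in `Pool/Agent/H39R2/GonP/Defs.lean`.
-/

set_option autoImplicit false

namespace Pool.Agent.Results.MP_9c6ec7_al.LastTwoDegrees

open GonP Helper47.Gon

/-- The fields `k(x)`: the differentials exist and are unique, `H^1 = 0`, `H^{n-1} = 0`,
`H^n = 0`. -/
theorem result :
    ∀ (p : ℕ) [Fact p.Prime] (k : Type) [Field k] [Algebra (ZMod p) k]
      [Algebra.IsAlgebraic (ZMod p) k],
      ∃ D : Differentials (RatFunc k), (∀ D' : Differentials (RatFunc k), D' = D) ∧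
        (∀ m, Function.Injective (D.d m 0)) ∧ Function.Injective (D.e 0) ∧
        (∀ j, Function.Exact (D.d 0 j) (D.e (j + 1))) ∧
        ∀ j, Function.Surjective (D.e j) :=
  fun p _ k _ _ _ => ratFunc_main k p

end Pool.Agent.Results.MP_9c6ec7_al.LastTwoDegrees
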